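import Pool.Agent.Helper30.UB.St

/-!
# Project UB (MP_16cbc0_nt), module SAV: many prime factors of comparable degree are rare
-/

set_option autoImplicit false

open Polynomial

namespace Pool.Agent.Helper2.UB

open Finset
open Pool.Agent.Helper15.FC Pool.Agent.Helper30.UB

private theorem nf_prod {F : Type} [Field F] {P : F[X]} (hP : P.Monic) : (nf P).prod = P := by
  classical
  unfold nf
  have h := UniqueFactorizationMonoid.prod_normalizedFactors_eq hP.ne_zero
  rw [hP.normalize_eq_self] at h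
  exact h

private theorem nf_irr {F : Type} [Field F] {P p : F[X]} (h : p ∈ nf P) : Irreducible p := by
  classical
  unfold nf at h
  exact UniqueFactorizationMonoid.irreducible_of_normalized_factor p h

private theorem nf_monic {F : Type} [Field F] {P p : F[X]} (h : p ∈ nf P) : p.Monic := by
  classical
  have hi := nf_irr h
  unfold nf at h
  have h1 := UniqueFactorizationMonoid.normalize_normalized_factor p h
  rw [← h1]
  exact Polynomial.monic_normalize hi.ne_zero

/-- the product of the weights -/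
private theorem prod_weight {F : Type} [Field F] (c q : ℝ) (m : Multiset F[X])
    (hm : ∀ p ∈ m, p.Monic) :
    (m.map (fun p => c / q ^ p.natDegree)).prod = c ^ Multiset.card m / q ^ (m.prod).natDegree := by
  induction m using Multiset.induction_on with
  | empty => simp
  | cons p m ih =>
    have h1 : p.Monic := hm p (Multiset.mem_cons_self p m)
    have h2 : ∀ p ∈ m, p.Monic := fun r hr => hm r (Multiset.mem_cons_of_mem hr)
    have h3 : m.prod.Monic := by
      have h := Polynomial.monic_multiset_prod_of_monic m (fun r => r) h2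
      simpa using h
    rw [Multiset.map_cons, Multiset.prod_cons, ih h2, Multiset.card_cons, Multiset.prod_cons,
      h1.natDegree_mul h3, pow_succ, pow_add, div_mul_div_comm, mul_comm c]

/-- SAV. -/
theorem hSAV (hE : StEUP) (hI : StIRB) : StSAV := by
  classical
  intro F _ _ v w K hK hv hvw hw2 hKq Q hQ
  obtain ⟨q, hq⟩ : ∃ q : ℝ, q = qr F := ⟨_, rfl⟩
  have hq2 : 2 ≤ q := by
    rw [hq]
    unfold qr
    exact_mod_cast Fintype.one_lt_card
  rw [← hq] at hKq
  rw [← hq]
  have hq0 : 0 < q := by linarith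
  have hq1 : 1 ≤ q := by linarith
  have hK0 : (0 : ℝ) < K := by exact_mod_cast hK
  -- the set of degrees and the set of primes
  obtain ⟨I, hI'⟩ : ∃ I : Finset ℕ, I = Finset.Ioc ⌊v⌋₊ ⌊w⌋₊ := ⟨_, rfl⟩
  have hv0 : 0 ≤ v := by linarith
  have hw0 : 0 ≤ w := by linarith
  have memI : ∀ d : ℕ, d ∈ I ↔ v < (d : ℝ) ∧ (d : ℝ) ≤ w := by
    intro d
    rw [hI', Finset.mem_Ioc, Nat.floor_lt hv0, Nat.le_floor_iff hw0]
  obtain ⟨S, hS⟩ : ∃ S : Finset F[X], S = I.biUnion (fun d => Ir F d) := ⟨_, rfl⟩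
  have memS : ∀ p : F[X], p ∈ S ↔ (p.Monic ∧ Irreducible p ∧ v < (p.natDegree : ℝ) ∧ (p.natDegree : ℝ) ≤ w) := by
    intro p
    rw [hS, Finset.mem_biUnion]
    constructor
    · rintro ⟨d, hd, hp⟩
      unfold Ir at hp
      rw [Finset.mem_filter, mem_Mn] at hp
      obtain ⟨⟨h1, h2⟩, h3⟩ := hp
      rw [memI] at hd
      rw [h2]
      exact ⟨h1, h3, hd⟩
    · rintro ⟨h1, h2, h3⟩
      refine ⟨p.natDegree, (memI _).2 h3, ?_⟩
      unfold Ir
      rw [Finset.mem_filter, mem_Mn]
      exact ⟨⟨h1, rfl⟩, h2⟩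
  have hx : ∀ p ∈ S, (K : ℝ) / q ^ p.natDegree ≤ 1 / 2 := by
    intro p hp
    obtain ⟨-, -, h3, -⟩ := (memS p).1 hp
    have h4 : q ^ v ≤ q ^ p.natDegree := by
      rw [← Real.rpow_natCast]
      exact Real.rpow_le_rpow_of_exponent_le hq1 h3.le
    rw [div_le_iff₀ (by positivity)]
    linarith
  have h1 := hE F S (fun p => (K : ℝ) / q ^ p.natDegree) (fun p hp => by
    obtain ⟨h1, h2, -⟩ := (memS p).1 hp
    refine ⟨h1, h2, by positivity, (hx p hp).trans (by norm_num)⟩) Q (fun P hP => by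
    obtain ⟨h1, -, h3⟩ := hQ P hP
    exact ⟨h1, fun p hp => (memS p).2 ⟨nf_monic hp, nf_irr hp, h3 p hp⟩⟩)
  -- the left side
  have h2 : ∀ P ∈ Q, ((nf P).map (fun p => (K : ℝ) / q ^ p.natDegree)).prod =
      (K : ℝ) ^ K * (1 / q ^ P.natDegree) := by
    intro P hP
    obtain ⟨h1, h4, -⟩ := hQ P hP
    rw [prod_weight (K : ℝ) q (nf P) (fun p hp => nf_monic hp), nf_prod h1, h4]
    ring
  rw [Finset.sum_congr rfl h2, ← Finset.mul_sum] at h1
  -- the right side
  have h3 : ∏ p ∈ S, (1 + 4 * ((K : ℝ) / q ^ p.natDegree)) ≤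
      Real.exp (∑ p ∈ S, 4 * ((K : ℝ) / q ^ p.natDegree)) := by
    rw [Real.exp_sum]
    refine Finset.prod_le_prod (fun p _ => by positivity) fun p _ => ?_
    rw [add_comm]
    exact Real.add_one_le_exp _
  have h5 : ∑ p ∈ S, 1 / q ^ p.natDegree ≤ 2 := by
    have hdisj : Set.PairwiseDisjoint (I : Set ℕ) (fun d => Ir F d) := by
      intro d _ e _ hde
      refine Finset.disjoint_left.2 fun p hp hp' => hde ?_
      unfold Ir at hp hp'
      rw [Finset.mem_filter, mem_Mn] at hp hp'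
      rw [← hp.1.2, ← hp'.1.2]
    rw [hS, Finset.sum_biUnion hdisj]
    have h6 : ∀ d ∈ I, ∑ p ∈ Ir F d, 1 / q ^ p.natDegree ≤ 1 / v := by
      intro d hd
      have hd' := (memI d).1 hd
      have hd0 : (0 : ℝ) < d := by linarith [hd'.1]
      have hd1 : 1 ≤ d := by exact_mod_cast (Nat.cast_pos.1 hd0 : 0 < d)
      have h7 : ∑ p ∈ Ir F d, 1 / q ^ p.natDegree = ((Ir F d).card : ℝ) * (1 / q ^ d) := by
        rw [← nsmul_eq_mul, ← Finset.sum_const]
        refine Finset.sum_congr rfl fun p hp => ?_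
        unfold Ir at hp
        rw [Finset.mem_filter, mem_Mn] at hp
        rw [hp.1.2]
      have h8 := hI F d hd1
      rw [← hq] at h8
      rw [h7, mul_one_div, div_le_div_iff₀ (by positivity) (by linarith), one_mul]
      calc ((Ir F d).card : ℝ) * v ≤ ((Ir F d).card : ℝ) * d :=
            mul_le_mul_of_nonneg_left hd'.1.le (by positivity)
        _ = (d : ℝ) * ((Ir F d).card : ℝ) := mul_comm _ _
        _ ≤ q ^ d := h8
    refine (Finset.sum_le_sum h6).trans ?_
    rw [Finset.sum_const, nsmul_eq_mul, mul_one_div, div_le_iff₀ (by linarith), hI', Nat.card_Ioc]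
    have h9 : ((⌊w⌋₊ - ⌊v⌋₊ : ℕ) : ℝ) = (⌊w⌋₊ : ℝ) - (⌊v⌋₊ : ℝ) :=
      Nat.cast_sub (Nat.floor_le_floor hvw)
    rw [h9]
    have h10 := Nat.floor_le hw0
    have h11 := Nat.lt_floor_add_one v
    linarith
  have h12 : ∑ p ∈ S, 4 * ((K : ℝ) / q ^ p.natDegree) ≤ 8 * K := by
    have e : ∑ p ∈ S, 4 * ((K : ℝ) / q ^ p.natDegree) = 4 * K * ∑ p ∈ S, 1 / q ^ p.natDegree := by
      rw [Finset.mul_sum]
      refine Finset.sum_congr rfl fun p _ => ?_
      ring
    rw [e]
    have := mul_le_mul_of_nonneg_left h5 (show (0 : ℝ) ≤ 4 * K by positivity)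
    linarith
  have h13 : (K : ℝ) ^ K * ∑ P ∈ Q, 1 / q ^ P.natDegree ≤ Real.exp 8 ^ K := by
    refine (h1.trans h3).trans ?_
    rw [← Real.exp_nat_mul]
    refine Real.exp_le_exp.2 ?_
    linarith
  rw [div_pow, le_div_iff₀ (by positivity), mul_comm]
  exact h13

end Pool.Agent.Helper2.UB
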